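import Pool.Agent.K4H27.PF.Main

/-!
# Parshin's conjecture for products of Fermat varieties over finite fields

Let `f > 0` and `k` be given. We consider the Fermat varieties
`x_0 ^ m + x_1 ^ m + ... + x_(n+1) ^ m = 0` over the finite fields with `p ^ e` elements which
contain the `m`-th roots of unity, for all primes `p` and all divisors `m` of `p ^ f - 1`.
Their primitive cohomology is spanned by eigenvectors of Frobenius that belong to characters, that
is multisets of `n + 2` nonzero residues modulo `m` with sum zero; the eigenvalues are Jacobi sums.
The cohomology of the product of Fermat varieties of dimensions `n_i` (and of its quotients by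
finite groups of diagonal automorphisms, for instance of hypersurfaces of Delsarte type) is of
*Fermat type* (`IsFermatType`), spanned by eigenvectors which belong (`Belongs`) to characters with
at most `k` entries, if the sum of the numbers `n_i + 2` is at most `k` (for curves: if there are at
most `k / 3` factors): the eigenvalues are Weil numbers (Weil), if the eigenvalue is the power `Q ^ (i / 2)` of the cardinality `Q = p ^ e`
of the field then the character is a Tate character (Stickelberger), and the eigenvector is then a
combination of classes of cycles if the character comes from surfaces and standard characters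
(Shioda, Katsura, Aoki, Tate).

Let `𝒵` be the class of the varieties of Fermat type, for a set `S` of characters. `ParshinFor` is
Parshin's conjecture for all smooth projective varieties `X` whose motives are direct summands of
finite sums of (twists of) motives of varieties in `𝒵`, for instance for all `X` dominated by one of
them: `K_i(X) ⊗ ℚ = 0` for all `i > 0`. Here the `K`-groups are any theory on which correspondences
act, with an Adams grading and with the Frobenius endomorphism acting by `Q ^ j` in degree `j`, which
vanishes for points (Quillen), and homologically trivial self-correspondences are nilpotent (Kimura;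
varieties dominated by products of curves).

The theorem: there are `M`, `C` which depend only on `k` and `f`, such that for all `p` and all
divisors `m` of `p ^ f - 1`

* Parshin's conjecture holds for everything generated by the varieties with characters of at most
  `k` entries of degree `m`, if `m` is prime to `M`;
* Parshin's conjecture holds for everything generated by the varieties with characters outside of
  the set `Exceptional p m`, for every `m`, and the proportion of this set among the Tate tuples
  with `j ≤ k` entries is at most `(C / m) ^ (1 / 2)` (and the number of its tuples is at most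
  `C * m ^ (j / 2 - 1)` if `f` is odd).
-/

set_option autoImplicit false

universe u v w

namespace Pool.Agent.Results.MP_27fd67_ag.FermatVarieties

open Pool.Agent.H914 Pool.Agent.H914.VarClass Pool.Agent.W492.BB Pool.Agent.W484.CK
  Pool.Agent.K4H33.WN Pool.Agent.K4H33.PK Pool.Agent.H916T Pool.Agent.K4H27.PF

/-- The exceptional characters of degree `m` in characteristic `p`: the Tate characters which do not
come from surfaces and standard characters. -/
def Exceptional (p m : ℕ) : Set (Multiset (ZMod m)) := {s | IsTate p m s ∧ ¬ Comes p m s}

/-- The tuples with `j` entries whose multiset lies in the set `S`. -/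
def tuples (m j : ℕ) (S : Set (Multiset (ZMod m))) : Set (Fin j → ZMod m) :=
  {a | (Finset.univ : Finset (Fin j)).val.map a ∈ S}

/-- Parshin's conjecture over the fields with `p ^ e` elements for everything generated by the
varieties of Fermat type of degree `m` with characters from the set `S`. -/
def ParshinOver (p m e : ℕ) (S : Set (Multiset (ZMod m))) : Prop :=
  ∀ (F : Type u) [Field F] (𝒱 : VarClass F) (C : TheoryData.{u, v, 0} 𝒱 ℚ) [IsChow C]
    (K : Type w) [Field K] [IsAlgClosed K] [CharZero K] (H : WeilTheoryData.{u, v, w} C K)
    [IsWeil H] (φ : FrobeniusFamily C (p ^ e)), IsStandard H →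
      ParshinFor H φ (IsFermatType H φ p m S)

theorem result (k f : ℕ) (hf : 0 < f) : ∃ M C : ℕ, 0 < M ∧ 0 < C ∧
    ∀ p : ℕ, p.Prime → ∀ m : ℕ, 0 < m → m ∣ p ^ f - 1 →
      (m.Coprime M → ∀ e : ℕ, 0 < e →
        ParshinOver.{u, v, w} p m e {s | Multiset.card s ≤ k}) ∧
      (∀ e : ℕ, 0 < e → ParshinOver.{u, v, w} p m e (Exceptional p m)ᶜ) ∧
      (∀ j ≤ k, (tuples m j (Exceptional p m)).ncard ^ 2 * m ≤
          C * (tuples m j {s | IsTate p m s}).ncard ^ 2 ∧
        (Odd f → (tuples m j (Exceptional p m)).ncard * m ≤ C * m ^ (j / 2))) := by
  choose M C hM hC h using fun j => Pool.Agent.K4H27.FT.exc_rare j f hf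
  refine ⟨∏ j ∈ Finset.range (k + 1), M j, ∑ j ∈ Finset.range (k + 1), C j,
    Finset.prod_pos fun j _ => hM j, Finset.sum_pos (fun j _ => hC j) ⟨0, by simp⟩, ?_⟩
  intro p hp m hm hmf
  have hpF : Fact p.Prime := ⟨hp⟩
  refine ⟨fun hco e he => ?_, fun e he => ?_, fun j hj => ?_⟩
  · intro F _ 𝒱 C' _ K _ _ _ H _ φ hS
    refine parshinFor_of_fermat he hS fun s hs hT => ?_
    obtain ⟨l, rfl⟩ := Quot.exists_rep s
    have hl : l.length ≤ k := hs
    have h1 := (h l.length p hp m hm hmf).2.2 (hco.coprime_dvd_right
      (Finset.dvd_prod_of_mem M (Finset.mem_range.2 (by omega))))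
    by_contra hcon
    have h0 : (Finset.univ : Finset (Fin l.length)).val.map (fun i => l.get i) =
        Quot.mk _ l := by
      rw [Fin.univ_val_map, List.ofFn_get]
      rfl
    have h2 : (fun i => l.get i) ∈ Pool.Agent.K4H27.FT.excSet p m l.length := by
      refine ⟨?_, ?_⟩
      · change IsTate p m ((Finset.univ : Finset (Fin l.length)).val.map fun i => l.get i)
        rw [h0]
        exact hT
      · change ¬ Comes p m ((Finset.univ : Finset (Fin l.length)).val.map fun i => l.get i)
        rw [h0]
        exact hcon
    rw [h1] at h2
    exact h2
  · intro F _ 𝒱 C' _ K _ _ _ H _ φ hS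
    refine parshinFor_of_fermat he hS fun s hs hT => ?_
    by_contra hcon
    exact hs ⟨hT, hcon⟩
  · have h1 : C j ≤ ∑ j ∈ Finset.range (k + 1), C j :=
      Finset.single_le_sum (fun _ _ => Nat.zero_le _) (Finset.mem_range.2 (by omega))
    obtain ⟨h2, h3, -⟩ := h j p hp m hm hmf
    exact ⟨h2.trans (Nat.mul_le_mul_right _ h1), fun ho => (h3 ho).trans
      (Nat.mul_le_mul_right _ h1)⟩

end Pool.Agent.Results.MP_27fd67_ag.FermatVarieties
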