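import Pool.Agent.K4H33.PK.Family
import Pool.Agent.K4H33.CP.Numeric

/-!
# Parshin's conjecture for products of varieties with independent slopes

Let `X l`, `l ∈ κ`, be finitely many smooth projective varieties over a finite field with
`q = p ^ e` elements, for which the Tate conjecture holds in all codimensions, with the
semisimplicity of Frobenius on the Tate classes (`TateOver`; the ground field is so large that all
Tate classes over extensions are defined over it, which can be achieved by a finite extension, and
such extensions are injective on rational `K`-groups), and which are pure (`IsPure`: the eigenvalues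
of Frobenius on `H^i` are Weil numbers of weight `i`). Let `Z` be the product of the `X l`. Purity is a
condition on the `X l` and on `U` only; for the products it is proved here.

For an irreducible factor `f` over `ℚ` of the characteristic polynomial of Frobenius on `H^d(X)`
(`factors`) the slopes of the `p`-adic roots of `f` define a probability distribution on the real
line. A *coupling* (`IsCoupling`) for factors `f l` on `H^(d l)(X l)` is a family of random variables
`s l` with these distributions, such that the sum of the `s l` is constant, equal to the half of the
sum of the `d l`. The slopes are *independent* if all couplings are trivial: `d l` even and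
`s l = d l / 2`.

**The criterion.** Suppose that the motives are finite-dimensional, in the form of the nilpotence of
the homologically trivial self-correspondences of `Z × U` (`Nilpotence`; Kimura, O'Sullivan), for
instance that the varieties are dominated by products of curves.

* If the slopes of the `X l` are independent, then `K_m(Z) ⊗ ℚ = 0` for all `m ≥ 1`
  (`ParshinHolds`; it is only used that this holds for points, a theorem of Quillen).
* If the slopes of the `X l` and of a pure variety `U` are independent (only the `s l` have to be trivial,
  not the random variable which belongs to `U`), then `K_m(Z × U) ⊗ ℚ` is, for all `m`, the direct sum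
  of the groups `D j × K_m(U) ⊗ ℚ` for finitely many cycles `D j` on `Z`, and Parshin's conjecture for
  `Z × U` is equivalent to Parshin's conjecture for `U` (`KReduces`). Neither the Tate conjecture nor
  the semisimplicity of Frobenius is assumed for `U`.

No hypothesis is made on the number fields generated by the eigenvalues of Frobenius, on their
Galois groups or on their intersections: only the slopes and their multiplicities are used.

**K3 surfaces.** Let the `X l` be K3 surfaces of height `h l` with Picard number `22 - t l` (the
supersingular ones have `t l = 0`) or other varieties of K3 type (`IsK3Type`). Assume that the finite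
heights are pairwise different. Then `K_m(Z) ⊗ ℚ = 0` for `m ≥ 1`, unless the pairs `(2, 2 a)`,
`(3, 3 a)`, `(6, 6 a)` all occur among the pairs `(h l, t l)`. If moreover no height is one, then
Parshin's conjecture for `Z × U` is equivalent to Parshin's conjecture for `U`, for **all** `U` whose
slopes in even degrees are integers, for instance for all ordinary `U`; if all finite heights are at
least three, for all `U` whose slopes in even degrees are half-integers (if no pairs `(3, 3 a)` and
`(6, 6 a)` occur together). For arbitrary heights `K_m(Z) ⊗ ℚ = 0` if the inverse of each `t l ≠ 0` is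
greater than the sum of the inverses of the `t l'` with `l' ≠ l` and `t l' ≥ t l`.

**Powers.** Let `X l` have no cohomology in odd degrees and slopes in `j + (1 / h l) {-n l, …, n l}` in
degree `2 j`. If `n l < h l` and the `h l` are pairwise coprime, then `K_m(Z) ⊗ ℚ = 0`, and Parshin's
conjecture for `Z × U` is equivalent to Parshin's conjecture for `U`, for all `U` whose slopes in even
degrees have denominators prime to the `h l`.

The proof. A relation between eigenvalues of Frobenius defines a coupling (the embeddings of the field
generated by them into the algebraic closure of `ℚ_p`, with the uniform distribution), so independent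
slopes have only the trivial relations, by Kronecker's theorem. Hence the part of the cohomology of
`Z × U` on which Frobenius has the eigenvalue `q ^ i` (for any integer `i`) lies in the span of the
products of cycle classes on `Z` and arbitrary classes of `U`. By duality there is a projector, a sum
of products of cycles, onto this part; since Frobenius acts on `K_m(Z × U)^(i)` by `q ^ i`, a
polynomial in the Frobenius correspondence and nilpotence show that the projector is the identity on
this group.
-/

set_option autoImplicit false

open CategoryTheory AlgebraicGeometry

universe u v w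

namespace Pool.Agent.Results.MP_27fd67_ag.IndependentSlopes

open Pool.Agent.H914 Pool.Agent.H914.VarClass Pool.Agent.W492.BB Pool.Agent.W484.CK
  Pool.Agent.K4H33.WN Pool.Agent.K4H33.PK
open Pool.Agent.K4H33.CP (DifferentHeights noZeroSum_different noIntegralSum_one
  noIntegralSum_two noZeroSum_super)

variable {k : Type u} [Field k] {𝒱 : VarClass k} {C : TheoryData.{u, v, 0} 𝒱 ℚ} {K : Type w}
  [Field K] [CharZero K] (H : WeilTheoryData.{u, v, w} C K) (p e : ℕ) [Fact p.Prime]
  (φ : FrobeniusFamily C (p ^ e)) {κ : Type} [Fintype κ] (X : κ → 𝒱.Obj) (Z : 𝒱.Obj)

/-- The criterion: Parshin's conjecture for `Z` if the slopes of the `X l` are independent, and for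
`Z × U` and `U` if the slopes of the `X l` and `U` are independent. -/
def CouplingCriterion : Prop :=
  (Independent p e (fun l => factors H φ (X l)) Set.univ → ParshinHolds H φ Z) ∧
    ∀ U, IsPure H φ p e U →
      Independent p e (withU (fun l => factors H φ (X l)) (factors H φ U))
        (Set.range some) → KReduces H φ Z U

/-- The case of varieties of K3 type with pairwise different heights. -/
def K3DifferentHeights : Prop :=
  ∀ h t : κ → ℕ, (∀ l, IsK3Type p e (factors H φ (X l)) (h l) (t l)) →
    (∀ l₂ l₃ l₆, h l₂ = 2 → h l₃ = 3 → h l₆ = 6 → t l₂ ≠ 0 → 3 * t l₂ = 2 * t l₃ →
      t l₆ = 3 * t l₂ → False) →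
    (DifferentHeights 1 h t → ParshinHolds H φ Z) ∧
    (DifferentHeights 2 h t → ∀ U, IsPure H φ p e U →
      IsEvenDenominator p e (factors H φ U) 1 → KReduces H φ Z U) ∧
    (DifferentHeights 3 h t →
      (∀ l₃ l₆, h l₃ = 3 → h l₆ = 6 → t l₃ ≠ 0 → t l₆ = 2 * t l₃ → False) →
      ∀ U, IsPure H φ p e U → IsEvenDenominator p e (factors H φ U) 2 → KReduces H φ Z U)

/-- The case of varieties of K3 type with arbitrary heights and superincreasing numbers
`1 / t l`. -/
def K3ManyCycles [DecidableEq κ] : Prop :=
  ∀ h t : κ → ℕ, (∀ l, IsK3Type p e (factors H φ (X l)) (h l) (t l)) →
    (∀ l, t l ≠ 0 →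
      ∑ l' with l' ≠ l ∧ t l ≤ t l', (1 : ℚ) / t l' < 1 / t l) → ParshinHolds H φ Z

/-- The case of varieties with slopes in `j + (1 / h l) {-n l, …, n l}`, with pairwise coprime
numbers `h l > n l`. -/
def CoprimeHeights : Prop :=
  ∀ h n : κ → ℕ, (∀ l, SlopesNear p e (factors H φ (X l)) (h l) (n l)) →
    (∀ l, n l < h l) → (∀ l l', l ≠ l' → Nat.Coprime (h l) (h l')) →
    ParshinHolds H φ Z ∧
    ∀ D : ℕ, (∀ l, Nat.Coprime (h l) D) → ∀ U, IsPure H φ p e U →
      IsEvenDenominator p e (factors H φ U) D → KReduces H φ Z U

/-- **Parshin's conjecture for products of varieties with independent slopes.** -/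
theorem result [IsChow C] [IsAlgClosed K] [IsWeil H] (hS : IsStandard H) (he : 0 < e)
    [DecidableEq κ] (hP : ∀ l, IsPure H φ p e (X l)) (hT : ∀ l, TateOver H φ (X l))
    (hZ : IsProductOnce X Finset.univ Z) :
    CouplingCriterion H p e φ X Z ∧ K3DifferentHeights H p e φ X Z ∧
      K3ManyCycles H p e φ X Z ∧ CoprimeHeights H p e φ X Z := by
  have hprod : Independent p e (fun l => factors H φ (X l)) Set.univ → ParshinHolds H φ Z :=
    fun hX => parshin_holds he hS hP hT hZ hX
  have htimes : ∀ U, IsPure H φ p e U →
      Independent p e (withU (fun l => factors H φ (X l)) (factors H φ U))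
        (Set.range some) → KReduces H φ Z U := fun U hPU hU => reduces he hS hP hT hZ U hPU hU
  have hirr : ∀ l d, ∀ f ∈ factors H φ (X l) d, Irreducible f := fun l d =>
    factors_irreducible (hP l) d
  refine ⟨⟨hprod, htimes⟩, fun h t hX hex => ⟨fun hd => ?_, fun hd U hPU hU => ?_,
    fun hd hex' U hPU hU => ?_⟩, fun h t hX hs => ?_,
    fun h n hX hn hc => ⟨?_, fun D hD U hPU hU => ?_⟩⟩
  · exact hprod (independent_of_noZeroSum he hirr hX
      (noZeroSum_different (fun l => (hX l).pos) hd hex))
  · exact htimes U hPU (independent_of_noIntegralSum he hirr (factors_irreducible hPU) hX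
      (noIntegralSum_one (fun l => (hX l).pos) hd hex) hU)
  · exact htimes U hPU (independent_of_noIntegralSum he hirr (factors_irreducible hPU) hX
      (noIntegralSum_two (fun l => (hX l).pos) hd hex') hU)
  · exact hprod (independent_of_noZeroSum he hirr hX
      (noZeroSum_super (fun l => (hX l).pos) hs))
  · exact hprod (independent_of_near he hirr hX hn hc)
  · exact htimes U hPU (independent_of_near_withU he hirr (factors_irreducible hPU) hX hn hc hD hU)

end Pool.Agent.Results.MP_27fd67_ag.IndependentSlopes
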