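import Mathlib
import Pool.Agent.K4H21.TP.Main

/-!
# Parshin's conjecture for all abelian varieties over finite fields which are reached by the theorems of
Tate and Markman, and for everything generated by them

Over an algebraic closure of the field with `p` elements each abelian variety is isogenous to the
reduction of an abelian variety of CM type (Honda, Tate). So an abelian variety over the field with
`q = p ^ a` elements is modelled by `RedAV`: a finite product of CM types `(E i, Φ i)` with Weil numbers
`π i ∈ E i` that satisfy the formula of Shimura and Taniyama; its cohomology of degree `n`, with
coefficients in an algebraically closed field `Ω`, consists of the alternating `n`-forms on `Ω ⊗ H_1`,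
`H_1 = ∏ E i`, on which the Frobenius endomorphism acts by `π`. The Frobenius eigenvalues of `Z` are the
numbers `eig Z w = φ (π i)`, `w = (i, φ)`, for the embeddings `φ` of `E i`. There is no condition on the
dimension and on the Newton polygons.

**Reached abelian varieties.** A relation is a family `e` of integers, indexed by the eigenvalues `α`,
with even sum `2 m`, such that `∏ α ^ e(α) = q ^ m` up to a root of unity (`IsRelation`). `Z` is reached
(`Reached`) if all relations are in the group `Gen Z` with the generators

* `[α] + [α']` if `α α' = q` up to a root of unity; `[α]` if `α ^ 2 = q` up to a root of unity;
* `∑ [θ φ]`, the sum over the embeddings `φ` with `φ δ = z` of the field `E` of a CM type `(E, Φ)` with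
  an element `δ = √-d`, `d > 0`, such that at most three elements of `Φ` map `δ` to `√-d`, and at most
  three to `-√-d`, where `θ φ` is an eigenvalue of `Z` with the valuations which belong to `(E, Φ)` and
  `φ` by the formula of Shimura and Taniyama.

This is the exact condition for all Tate classes on all products of powers of the factors of `Z` to be
in the system generated by the theorems of Tate (classes of degree two) and Markman (Weil classes of
imaginary quadratic fields on fourfolds and sixfolds of CM type): `MP_021685_ag.FiniteFieldLattice`.

The theorem has three parts.

1. **Parshin's conjecture.** Let `𝒢` be the smallest class (`Generated`) of schemes `X` of finite type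
   over a finite field that contains those with the homology groups of products of powers of factors
   of reached abelian varieties `Z` (`IsReachedAbelian`), that is closed under direct summands of
   finite sums of twists of motives, and that contains all of a closed subscheme `A` of `X`, `X` and
   `X ∖ A` if it contains two of them. Then `K_m(X) ⊗ ℚ = 0` for all `m ≥ 1` and all smooth projective
   `X` in `𝒢`.
2. **Many abelian varieties are reached.** Let `W 1, ..., W r` be CM types as above with `δ i = √-d_i`
   for which the eigenvalues `θ φ` are different up to roots of unity, for different `φ` and for
   different `i` (`QuadDatum`). Let `s` be the number of the different rational numbers `d_i` for which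
   `p` splits in `ℚ(√-d_i)` and the two multiplicities are different for some `i` with this `d_i`
   (`Unbalanced`), and let `2 g'` be the number of the Frobenius eigenvalues up to roots of unity,
   without the supersingular ones (`numEig`). `Z` is reached if its angle rank (the rank of the group
   generated by the `α ^ 2 / q`, `rank`) is at least `g' - r + s`. There is no bound on `r` and `g'`.
3. **Geometrically simple abelian varieties.** Suppose that all factors of `Z` except one are
   supersingular, and that there is a supersingular factor or `Z` is ordinary (the one factor is, over
   an algebraic closure, a power of a geometrically simple `B`; there is no condition on the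
   endomorphism algebra). Then `Z` is reached if and only if the angle rank is `g'`, or it is `g' - 1`
   and there is a `W` as in part 2 which is not unbalanced. If the one factor is ordinary and its
   eigenvalues are different up to roots of unity (`OrdinarySimple`; it is geometrically simple), the
   condition is: the angle rank is `g'`, or it is `g' - 1` and `g' ≤ 6`.

For example the class `𝒢` contains all powers of a geometrically simple ordinary sixfold with angle rank
five, and all products of such powers with powers of abelian varieties of maximal angle rank, if the
angle ranks add up; the open and singular varieties stratified by products of such abelian varieties,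
and the symmetric powers and moduli spaces whose motives are summands of sums of twists of theirs.

`Homology Ω V` are data of motivic homology `M X i j = H_i^M(X, ℚ(j)) = CH_j(X, i - 2 j) ⊗ ℚ` and of
`ℓ`-adic homology `E X i j = H_i(X, ℚ_ℓ(j))` (coefficients extended to `Ω`) of schemes `X` of finite
type over a finite field (the elements of `V`), with the Frobenius and the regulator. Smooth projective
schemes are `IsPure` by the theorem of Deligne. The groups `G m = K_m(X)` are groups that embed, up to
torsion, into the sum of the groups `H_(m + 2 j)^M(X, ℚ(j)) = CH_j(X, m) ⊗ ℚ` (`IsKTheory`; Bloch,
Levine). Properties of the theory of cycles that are used for the abelian varieties (`IsChow`,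
`IsMotivic`): Poincaré duality, the formal properties of correspondences, the nilpotence of
homologically trivial correspondences (Kimura), the operation of the Frobenius endomorphism on higher
Chow groups, the vanishing of the higher rational `K`-groups of a finite field (Quillen), and the
algebraicity of the classes in `Alg` (Tate, Markman). No conjecture is assumed. The passage from the
Tate conjecture to Parshin's conjecture is due to Soulé, Geisser, Kahn and Jannsen. New are the cases of
the Tate conjecture in this generality; before, Parshin's conjecture was known for abelian varieties
whose Tate classes come from divisors (Soulé, Kahn), and in this series for those of dimension at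
most five and for relations of special types (`MP_ee618e_ag.ElementaryRelations`).
-/

set_option autoImplicit false

namespace Pool.Agent.Results.MP_27fd67_ag.LatticeParshin

open Pool.Agent.W495.TA Pool.Agent.W495.FM Pool.Agent.TH117.BL Pool.Agent.K4H21.TF
  Pool.Agent.K4H21.TP Pool.Agent.X303.TBDual

/-- **Parshin's conjecture for everything generated by the abelian varieties over finite fields all of
whose multiplicative relations between Frobenius eigenvalues come from imaginary quadratic fields with
multiplicities at most three.** -/
theorem result {p : ℕ} [Fact p.Prime] (ν : PadicAlgCl p ≃+* ℂ) :
    -- Parshin's conjecture
    (∀ (Ω : Type) [Field Ω] [IsAlgClosed Ω] [CharZero Ω] (V : Type) (T : Homology Ω V),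
      IsHomology T → ∀ X : V, Generated T (IsReachedAbelian p ν T) X → IsPure T X →
      ∀ (G : ℤ → Type) [∀ m, AddCommGroup (G m)], IsKTheory T X G →
      ∀ m : ℤ, 1 ≤ m → ∀ x : G m, IsOfFinAddOrder x) ∧
    -- the numerical criterion
    (∀ (Z : RedAV p ν) (r : ℕ) (W : Fin r → QuadDatum Z),
      (∀ i k, i ≠ k → ∀ w ∈ Set.range (W i).θ, ∀ w' ∈ Set.range (W k).θ, ¬ SameEig Z w w') →
      numEig Z / 2 + ((fun i => (W i).d) '' {i | Unbalanced (W i)}).ncard ≤ rank Z + r →
      Reached Z) ∧
    -- geometrically simple abelian varieties
    (∀ (Z : RedAV p ν) (i₀ : Z.X.I), IsotypicTimesSuper Z i₀ →
      (Reached Z ↔ 2 * rank Z = numEig Z ∨
        (2 * (rank Z + 1) = numEig Z ∧ ∃ W : QuadDatum Z, ¬ Unbalanced W)) ∧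
      (OrdinarySimple Z i₀ → (Reached Z ↔ 2 * rank Z = numEig Z ∨
        (2 * (rank Z + 1) = numEig Z ∧ numEig Z ≤ 12)))) :=
  main ν

end Pool.Agent.Results.MP_27fd67_ag.LatticeParshin
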