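import Pool.Agent.K4H97.QP.Bridge

/-!
# The growth of the K-groups of `X ^ m × Z` is quantized
-/

set_option autoImplicit false

open Filter Topology Module Pool.Agent.K4H97.QP

namespace Pool.Agent.Results.MP_27fd67_ag.QuantizationLaw

universe u w

/-- The K-groups of the products `X ^ m × Z` of the powers of `X` with a smooth projective scheme `Z`,
with coefficients in `k`. -/
structure KGroups {k : Type} [Field k] (X : ChowPowers.{u} k) where
  /-- `K i m` is `K_i(X ^ m × Z)` with coefficients in `k` -/
  K : ℕ → ℕ → Type w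
  addCommGroup : ∀ i m, AddCommGroup (K i m)
  module : ∀ i m, Module k (K i m)
  /-- the action of the correspondences from `X ^ a` to `X ^ c` -/
  act : ∀ (i : ℕ) {a c : ℕ}, X.Corr a c → K i a → K i c

attribute [instance] KGroups.addCommGroup KGroups.module

namespace KGroups

variable {k : Type} [Field k] {X : ChowPowers.{u} k}

/-- The correspondences act on the K-groups: the action is linear in both variables and compatible with
the composition, and the diagonals act as the identity. -/
structure IsKTheory (T : KGroups.{u, w} X) : Prop where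
  left : ∀ (i a c : ℕ) (z : T.K i a), IsLinearMap k fun x : X.Corr a c => T.act i x z
  right : ∀ (i a c : ℕ) (x : X.Corr a c), IsLinearMap k fun z : T.K i a => T.act i x z
  comp : ∀ (i : ℕ) {a b c : ℕ} (x : X.Corr b c) (y : X.Corr a b) (z : T.K i a),
    T.act i (X.comp x y) z = T.act i x (T.act i y z)
  diag : ∀ (i a : ℕ) (z : T.K i a), T.act i (X.diag a) z = z

/-- The sum of the ranks of the groups `K_i(X ^ m × Z)` over the `i` in the set `S`. -/
noncomputable def rank (T : KGroups.{u, w} X) (S : Set ℕ) (m : ℕ) : Cardinal :=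
  Module.rank k (DirectSum S fun i => T.K i m)

/-- Parshin's conjecture for `K_i(X ^ m × Z)`, `i` in `S`, `m ≥ 0`: these groups are torsion. -/
def Parshin (T : KGroups.{u, w} X) (S : Set ℕ) : Prop :=
  ∀ i ∈ S, ∀ (m : ℕ) (z : T.K i m), z = 0

end KGroups

/-- `r m / b m` tends to the limit `κ` in `{0, 1, 2, …, ∞}`; if `κ` is finite then all `r m` are finite. -/
def HasRatio (r : ℕ → Cardinal.{w}) (b : ℕ → ℕ) (κ : ℕ∞) : Prop :=
  (κ = ⊤ → ∀ n : ℕ, ∀ᶠ m in atTop, ((n * b m : ℕ) : Cardinal) ≤ r m) ∧
  ∀ n : ℕ, κ = n → (∀ m, r m < Cardinal.aleph0) ∧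
    Tendsto (fun m => (Cardinal.toNat (r m) : ℝ) / b m) atTop (𝓝 n)

/-- For some `ε > 0` the inequality `r m ≤ (1 - ε) b m` is true for infinitely many `m`. -/
def IsSmall (r : ℕ → Cardinal.{w}) (b : ℕ → ℕ) : Prop :=
  ∃ ε : ℝ, 0 < ε ∧ ∃ᶠ m in atTop, ∃ n : ℕ, r m = n ∧ (n : ℝ) ≤ (1 - ε) * b m

/-- For some `c` and all large `m`, `D ^ m ≤ c (m + 1) ^ c r m`. -/
def GrowsLike (r : ℕ → Cardinal.{w}) (D : ℕ) : Prop :=
  ∃ c : ℕ, ∀ᶠ m in atTop, ((D ^ m : ℕ) : Cardinal) ≤ ((c * (m + 1) ^ c : ℕ) : Cardinal) * r m

section

variable {k : Type} [Field k] {X : ChowPowers.{u} k}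

/-- The K-groups as a module over the correspondences. -/
noncomputable def modS (hX : X.IsChow) (T : KGroups.{u, w} X) (hT : T.IsKTheory) (S : Set ℕ) :
    Pool.Agent.K4H67.QW.CorrModule (toQW hX) (fun m => DirectSum S fun i => T.K i m) where
  act {a c} :=
    { toFun := fun x => DirectSum.lmap fun i : S => IsLinearMap.mk' _ (hT.right i a c x)
      map_add' := by
        intro x y
        refine LinearMap.ext fun z => DFinsupp.ext fun i => ?_
        exact (hT.left i a c (z i)).map_add x y
      map_smul' := by
        intro r x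
        refine LinearMap.ext fun z => DFinsupp.ext fun i => ?_
        exact (hT.left i a c (z i)).map_smul r x }
  act_comp x y z := by
    refine DFinsupp.ext fun i => ?_
    exact hT.comp i x y (z i)
  act_diag a z := by
    refine DFinsupp.ext fun i => ?_
    exact hT.diag i a (z i)

theorem rank_eq (T : KGroups.{u, w} X) (S : Set ℕ) (m : ℕ) :
    Module.rank k (⊤ : Submodule k (DirectSum S fun i => T.K i m)) = T.rank S m := rank_top _ _

theorem pos [CharZero k] (hX : X.IsChow) (m : ℕ) : 0 < X.classDim m := by
  rw [← classDim_eq hX]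
  exact Pool.Agent.K4H67.QW.classDim_pos (isChow hX) m

/-- There are exponentially many independent algebraic classes. -/
theorem low [CharZero k] (hX : X.IsChow) :
    ∃ c : ℕ, ∀ m, Fintype.card X.ι ^ m ≤ c * (m + 1) ^ c * X.classDim m := by
  obtain ⟨c, hc⟩ := Pool.Agent.K4H35.QB.low_B (Pool.Agent.K4H67.QW.pair (isChow hX))
  refine ⟨c, fun m => ?_⟩
  have h1 := hc m
  rw [← classDim_eq hX m, Pool.Agent.K4H67.QW.classDim_eq (isChow hX) m]
  refine le_trans h1 (le_of_eq ?_)
  ring

theorem gap_of [CharZero k] (hX : X.IsChow) {r : ℕ → Cardinal.{w}}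
    (h : ∀ᶠ m in atTop, ((X.classDim m : ℕ) : Cardinal) ≤ 2 * r m) :
    GrowsLike r (Fintype.card X.ι) := by
  obtain ⟨c, hc⟩ := low hX
  refine ⟨2 * c, h.mono fun m hm => ?_⟩
  calc ((Fintype.card X.ι ^ m : ℕ) : Cardinal) ≤ ((c * (m + 1) ^ c * X.classDim m : ℕ) : Cardinal) :=
        Nat.cast_le.2 (hc m)
    _ = ((c * (m + 1) ^ c : ℕ) : Cardinal) * (X.classDim m : Cardinal) := by push_cast; ring
    _ ≤ ((c * (m + 1) ^ c : ℕ) : Cardinal) * (2 * r m) := mul_le_mul_right hm _
    _ = ((2 * c * (m + 1) ^ c : ℕ) : Cardinal) * r m := by push_cast; ring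
    _ ≤ _ := by
        refine mul_le_mul_left (Nat.cast_le.2 ?_) _
        exact Nat.mul_le_mul_left _ (Nat.pow_le_pow_right (Nat.succ_pos m) (by omega))

theorem zero_of_subsingleton (T : KGroups.{u, w} X) (S : Set ℕ)
    (h : ∀ m, (⊤ : Submodule k (DirectSum S fun i => T.K i m)) = ⊥) : T.Parshin S := by
  classical
  intro i hi m z
  have h1 : DirectSum.lof k S (fun i => T.K i m) ⟨i, hi⟩ z ∈
      (⊥ : Submodule k (DirectSum S fun i => T.K i m)) := by
    rw [← h m]; trivial
  rw [Submodule.mem_bot] at h1
  have h2 := congrArg (fun y => DirectSum.component k S (fun i => T.K i m) ⟨i, hi⟩ y) h1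
  simpa using h2

theorem rank_zero (T : KGroups.{u, w} X) (S : Set ℕ) (h : T.Parshin S) (m : ℕ) :
    T.rank S m = 0 := by
  have h1 : Subsingleton (DirectSum S fun i => T.K i m) := by
    refine ⟨fun a b => DFinsupp.ext fun i => ?_⟩
    rw [h i i.2 m (a i), h i i.2 m (b i)]
  exact rank_subsingleton' _ _

end

/-- **Parshin's conjecture and the growth of the K-groups of `X ^ m × Z`.**

Let `X` be a smooth projective variety over a finite field such that

* the motive of `X` is finite-dimensional, in the form `Nilpotence` (the correspondences of `X ^ a` with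
  itself whose class is zero are nilpotent), and
* numerical and homological equivalence agree on the powers of `X` (`NumIsHom`).

Both are theorems for all abelian varieties `X` (Shermenev, Deninger–Murre, Künnemann, Kimura for the
first; Clozel for the second, where the coefficients `k` are an algebraic closure of `ℚ_ℓ` for `ℓ` in a
set of positive density which depends on `X`; for products of elliptic curves the second is known for
all `ℓ`, by Spiess). Let `Z` be ANY smooth projective scheme over the finite field; there is no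
hypothesis on `Z`. The groups `K_i(X ^ a × Z) ⊗ k` are mapped to `K_i(X ^ c × Z) ⊗ k` by the
correspondences `x` from `X ^ a` to `X ^ c`, of all codimensions (the product of `x` and of the diagonal
of `Z` acts, by the theorem of Riemann and Roch); this is the only fact on K-theory that is used.

Let `b m` (`classDim`) be the dimension of the space of classes of algebraic cycles in `H(X ^ m)`, let
`D` be the dimension of `H(X)`, let `S` be a set of integers, for example `{i}` or all `i ≥ 1`, and let
`r m` be the sum of the ranks of the groups `K_i(X ^ m × Z)`, `i ∈ S`.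

Theorem. The quotient `r m / b m` has a limit `κ` in `{0, 1, 2, …, ∞}`; if it is finite then all `r m`
are finite. The limit is zero if and only if all groups `K_i(X ^ m × Z)`, `i ∈ S`, `m ≥ 0`, are torsion
(this is Parshin's conjecture for all `X ^ m × Z`, in particular, `m = 0`, for `Z`, if `S` is the set of
all `i ≥ 1`), and if and only if there is `ε > 0` such that `r m ≤ (1 - ε) b m` for infinitely many `m`.
If the limit is not zero, if only one of the groups is not torsion, then the ranks grow exponentially:
`D ^ m ≤ c (m + 1) ^ c r m` for some `c` and all large `m`.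

(For trivial reasons, by exterior products, a nonzero element of `K_i(X ^ n × Z) ⊗ ℚ` gives only
`b (m - n)` independent elements of `K_i(X ^ m × Z) ⊗ ℚ`, which is about `b m / D ^ n`; the theorem gives
`(1 - ε) b m` of them for all large `m`, and an integer as the limit.) The conjecture of Tate is not
assumed (Soulé, Geisser, Kahn and Jannsen deduce Parshin's conjecture from it and from the finiteness of
the motives). -/
theorem result {k : Type} [Field k] [CharZero k] (X : ChowPowers.{u} k) (hX : X.IsChow)
    (hK : X.Nilpotence) (hN : X.NumIsHom) (T : KGroups.{u, w} X) (hT : T.IsKTheory) (S : Set ℕ) :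
    ∃ κ : ℕ∞, HasRatio (T.rank S) X.classDim κ ∧ (κ = 0 ↔ T.Parshin S) ∧
      (κ = 0 ↔ IsSmall (T.rank S) X.classDim) ∧
      (κ ≠ 0 → GrowsLike (T.rank S) (Fintype.card X.ι)) := by
  have hpos : ∀ m, (0 : ℝ) < X.classDim m := fun m => by exact_mod_cast pos hX m
  have hstab : (modS hX T hT S).IsStable (fun _ => ⊤) := fun _ _ _ _ _ => trivial
  have hq := Pool.Agent.K4H67.QW.quant (isChow hX) (nilpotence hX hK) (numIsHom hX hN)
    (modS hX T hT S) hstab
  simp only [classDim_eq hX] at hq
  rcases hq with h1 | ⟨h1, K, h2, h3⟩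
  · -- infinite limit
    simp only [rank_eq] at h1
    refine ⟨⊤, ⟨fun _ => h1, fun n hn => absurd hn (ENat.top_ne_natCast n)⟩, ?_, ?_, fun _ => ?_⟩
    · refine ⟨fun h => absurd h ENat.top_ne_zero, fun h => ?_⟩
      exfalso
      obtain ⟨m, hm⟩ := (h1 1).exists
      rw [rank_zero T S h m, one_mul] at hm
      have h4 : ((X.classDim m : ℕ) : Cardinal.{w}) ≤ ((0 : ℕ) : Cardinal) := by
        rw [Nat.cast_zero]; exact hm
      have h5 := Nat.cast_le.1 h4
      have h6 := pos hX m
      omega
    · refine ⟨fun h => absurd h ENat.top_ne_zero, ?_⟩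
      rintro ⟨ε, hε, hf⟩
      exfalso
      obtain ⟨m, ⟨n, hn, hn'⟩, hm⟩ := (hf.and_eventually (h1 1)).exists
      rw [one_mul, hn] at hm
      have h4 : (X.classDim m : ℝ) ≤ n := by exact_mod_cast Nat.cast_le.1 hm
      nlinarith [hpos m]
    · refine gap_of hX ((h1 1).mono fun m hm => ?_)
      rw [one_mul] at hm
      refine hm.trans ?_
      rw [two_mul]
      exact le_self_add
  · -- finite limit
    have hfin : ∀ m, T.rank S m < Cardinal.aleph0 := fun m => by
      have := h1 m
      rw [← rank_eq]
      exact rank_lt_aleph0 k _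
    have hrank : ∀ m, finrank k (⊤ : Submodule k (DirectSum S fun i => T.K i m)) =
        Cardinal.toNat (T.rank S m) := fun m => by
      rw [← rank_eq]; rfl
    simp only [hrank] at h2
    have hev : ∀ δ : ℝ, δ < K → ∀ᶠ m in atTop,
        δ * X.classDim m < (Cardinal.toNat (T.rank S m) : ℝ) := by
      intro δ hδ
      refine (h2.eventually (lt_mem_nhds hδ)).mono fun m hm => ?_
      rwa [lt_div_iff₀ (hpos m)] at hm
    have hzero : T.Parshin S → K = 0 := by
      intro h
      by_contra hne
      have hK1 : (1 : ℝ) ≤ K := by exact_mod_cast Nat.one_le_iff_ne_zero.2 hne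
      obtain ⟨m, hm⟩ := (hev (1 / 2) (by linarith)).exists
      rw [rank_zero T S h m, map_zero, Nat.cast_zero] at hm
      nlinarith [hpos m]
    have hcast : ((K : ℕ∞) = 0) ↔ K = 0 := Nat.cast_eq_zero
    refine ⟨K, ⟨fun h => absurd h (ENat.natCast_ne_top K), fun n hn => ⟨hfin, ?_⟩⟩, ?_, ?_, fun h => ?_⟩
    · rw [← Nat.cast_inj.1 hn]
      exact h2
    · rw [hcast]
      exact ⟨fun h => zero_of_subsingleton T S (h3 h), hzero⟩
    · rw [hcast]
      constructor
      · intro h
        refine ⟨1 / 2, by norm_num, Eventually.frequently (Eventually.of_forall fun m => ⟨0, ?_, ?_⟩)⟩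
        · rw [rank_zero T S (zero_of_subsingleton T S (h3 h)) m, Nat.cast_zero]
        · rw [Nat.cast_zero]
          have := (hpos m).le
          positivity
      · rintro ⟨ε, hε, hf⟩
        by_contra hne
        have hK1 : (1 : ℝ) ≤ K := by exact_mod_cast Nat.one_le_iff_ne_zero.2 hne
        obtain ⟨m, ⟨n, hn, hn'⟩, hm⟩ := (hf.and_eventually (hev (1 - ε) (by linarith))).exists
        rw [hn, Cardinal.toNat_natCast] at hm
        linarith
    · have hK1 : (1 : ℝ) ≤ K := by
        exact_mod_cast Nat.one_le_iff_ne_zero.2 fun h0 => h (hcast.2 h0)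
      refine gap_of hX ((hev (1 / 2) (by linarith)).mono fun m hm => ?_)
      have h4 : X.classDim m ≤ 2 * Cardinal.toNat (T.rank S m) := by
        have h5 : (X.classDim m : ℝ) < 2 * (Cardinal.toNat (T.rank S m) : ℝ) := by linarith
        exact_mod_cast h5.le
      calc ((X.classDim m : ℕ) : Cardinal) ≤ ((2 * Cardinal.toNat (T.rank S m) : ℕ) : Cardinal) :=
            Nat.cast_le.2 h4
        _ = 2 * T.rank S m := by
            rw [Nat.cast_mul, Cardinal.cast_toNat_of_lt_aleph0 (hfin m), Nat.cast_ofNat]

end Pool.Agent.Results.MP_27fd67_ag.QuantizationLaw
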